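import Pool.Agent.helper48.AN.SpecF

/-!
# Project an, module FG4: the connection of a logarithmic differential has a nonzero horizontal section
-/

namespace AN

open scoped Classical
open Pool.Agent.helper53.AU

noncomputable section

theorem FG4_cf_iter {K : Type} [Field K] (j : ℕ) : ∀ (f : LS K) (n : ℤ),
    cf ((fun z : LS K => dd z)^[j] f) n =
      (∏ i ∈ Finset.range j, ((n + 1 + (i : ℤ) : ℤ) : K)) * cf f (n + j) := by
  induction j with
  | zero => intro f n; simp
  | succ j ih =>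
    intro f n
    rw [Function.iterate_succ_apply, ih (dd f) n, cf_dd, Finset.prod_range_succ]
    have e1 : n + (j : ℤ) + 1 = n + ((j + 1 : ℕ) : ℤ) := by push_cast; ring
    have e2 : n + 1 + (j : ℤ) = n + ((j + 1 : ℕ) : ℤ) := by push_cast; ring
    rw [e1, e2]
    ring

theorem FG4_mono_pow {K : Type} [Field K] (n : ℤ) (j : ℕ) :
    (mono n (1 : K)) ^ j = mono (j * n) 1 := by
  induction j with
  | zero =>
    rw [pow_zero, Nat.cast_zero, zero_mul, ← C_eq_mono, map_one]
  | succ j ih =>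
    rw [pow_succ, ih, mono_mul_mono, mul_one]
    congr 1
    push_cast
    ring

theorem FG4_wilson {p : ℕ} [hp : Fact p.Prime] {K : Type} [Field K] [CharP K p] (m : ℤ) :
    (∏ i ∈ Finset.range (p - 1), (((p : ℤ) * m + 1 + (i : ℤ) : ℤ) : K)) = -1 := by
  have h1 : (∏ i ∈ Finset.range (p - 1), (((p : ℤ) * m + 1 + (i : ℤ) : ℤ) : K)) =
      (((p - 1).factorial : ℕ) : K) := by
    rw [← Finset.prod_range_add_one_eq_factorial, Nat.cast_prod]
    refine Finset.prod_congr rfl fun i _ => ?_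
    push_cast
    rw [CharP.cast_eq_zero K p]
    ring
  rw [h1]
  have h2 := congrArg (ZMod.castHom (dvd_refl p) K) (ZMod.wilsons_lemma p)
  rw [map_natCast, map_neg, map_one] at h2
  exact h2

theorem FG4_curv (p : ℕ) [hp : Fact p.Prime] (K : Type) [Field K] [CharP K p] (η : LS K)
    (hη : ∀ y : LS K, res (y ^ p * η) = (res (y * η)) ^ p) :
    ((fun z : LS K => dd z)^[p - 1]) η + η ^ p = 0 := by
  have hp1 : 1 < p := hp.out.one_lt
  apply LS.ext
  intro n
  rw [cf_add, cf_zero, FG4_cf_iter, cf_pow_char p]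
  by_cases hd : (p : ℤ) ∣ n
  · obtain ⟨m, rfl⟩ := hd
    rw [if_pos (dvd_mul_right _ _), Int.mul_ediv_cancel_left _ (by positivity), FG4_wilson]
    have hy := hη (mono (-(m + 1)) 1)
    unfold res at hy
    rw [FG4_mono_pow, cf_mono_mul, cf_mono_mul, one_mul, one_mul] at hy
    have e1 : (-1 : ℤ) - (p : ℤ) * -(m + 1) = (p : ℤ) * m + ((p - 1 : ℕ) : ℤ) := by
      rw [Nat.cast_sub hp1.le]
      push_cast
      ring
    have e2 : (-1 : ℤ) - -(m + 1) = m := by ring
    rw [e1, e2] at hy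
    rw [hy]
    ring
  · rw [if_neg hd, add_zero]
    have hz : (∏ i ∈ Finset.range (p - 1), ((n + 1 + (i : ℤ) : ℤ) : K)) = 0 := by
      have hpos : (0 : ℤ) < p := by omega
      have hr0 : 0 ≤ n % p := Int.emod_nonneg _ (by omega)
      have hr1 : n % p < p := Int.emod_lt_of_pos _ hpos
      have hrne : n % p ≠ 0 := fun h => hd (Int.dvd_of_emod_eq_zero h)
      refine Finset.prod_eq_zero (i := ((p : ℤ) - 1 - n % p).toNat) ?_ ?_
      · rw [Finset.mem_range]
        omega
      · have e1 : ((((p : ℤ) - 1 - n % p).toNat : ℕ) : ℤ) = (p : ℤ) - 1 - n % p :=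
          Int.toNat_of_nonneg (by omega)
        rw [e1]
        have e2 : n + 1 + ((p : ℤ) - 1 - n % p) = (p : ℤ) * (n / p + 1) := by
          have := Int.emod_add_mul_ediv n p
          linarith
        rw [e2]
        push_cast
        rw [CharP.cast_eq_zero K p, zero_mul]
    rw [hz, zero_mul]

theorem FG4 (h3 : FG3_stmt) : FG4_stmt := by
  intro p hp K _ _ _ η hη
  have hc : ((conn η)^[p]) (1 : LS K) = 0 := by
    rw [h3 p K η 1, FG4_curv p K η hη, neg_zero, zero_mul]
  have hex : ∃ j : ℕ, ((conn η)^[j]) (1 : LS K) = 0 := ⟨p, hc⟩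
  have hj := Nat.find_spec hex
  have hj0 : Nat.find hex ≠ 0 := by
    intro h0
    rw [h0] at hj
    exact one_ne_zero hj
  obtain ⟨j, hjj⟩ := Nat.exists_eq_succ_of_ne_zero hj0
  have hlt : ¬ ((conn η)^[j]) (1 : LS K) = 0 := Nat.find_min hex (by omega)
  rw [hjj, Function.iterate_succ_apply'] at hj
  exact ⟨((conn η)^[j]) (1 : LS K), hlt, sub_eq_zero.mp hj⟩

end

end AN
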