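import Pool.Agent.helper48.AN.SpecA

set_option autoImplicit false

/-!
# Module KE of project an: the Hasse-Witt matrix
-/

namespace AN

open scoped Classical

noncomputable section

theorem KE_pow {R : Type} [CommRing R] (m : ℤ) (n : ℕ) :
    (mono m (1 : R)) ^ n = mono (n * m) (1 : R) := by
  induction n with
  | zero =>
    rw [pow_zero, Nat.cast_zero, zero_mul, ← C_eq_mono, map_one]
  | succ n ih =>
    rw [pow_succ, ih, mono_mul_mono, one_mul]
    congr 1
    push_cast
    ring

theorem KE : KE_stmt := by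
  intro p hp R _ _ g γ a hK j
  have hpow : (mono (-(γ j : ℤ)) (1 : R)) ^ p = mono (-((p * γ j : ℕ) : ℤ)) (1 : R) := by
    rw [KE_pow]
    congr 1
    push_cast
    ring
  rw [hpow]
  obtain ⟨r, hr⟩ : ∃ r, r = p * γ j := ⟨_, rfl⟩
  by_cases hgap : Gp γ (p * γ j)
  · refine ⟨0, Submodule.zero_mem _, 0, Submodule.zero_mem _, ?_⟩
    rw [add_zero, add_zero]
    obtain ⟨i0, hi0⟩ := hgap
    rw [Finset.sum_eq_single i0]
    · unfold HW
      rw [if_pos ⟨i0, hi0⟩, if_pos hi0, hi0]
    · intro i _ hi
      unfold HW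
      rw [if_pos ⟨i0, hi0⟩, if_neg, mono_zero]
      intro h
      exact hi (hK.inj (h.trans hi0.symm))
    · intro h
      exact absurd (Finset.mem_univ _) h
  · refine ⟨a (p * γ j), Submodule.subset_span ⟨_, hgap, rfl⟩,
      mono (-((p * γ j : ℕ) : ℤ)) (1 : R) - a (p * γ j) -
        ∑ i, mono (-(γ i : ℤ)) (HW p γ a i j), ?_, by ring⟩
    rw [← hr] at hgap ⊢
    intro n hn
    obtain ⟨m, hm, rfl⟩ : ∃ m : ℕ, 0 < m ∧ n = -(m : ℤ) := ⟨n.natAbs, by omega, by omega⟩
    rw [cf_sub, cf_sub, cf_sum, cf_mono]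
    have hHW : ∀ i, HW p γ a i j = -cf (a r) (-(γ i : ℤ)) := by
      intro i
      unfold HW
      rw [← hr, if_neg hgap]
    simp only [cf_mono, hHW]
    by_cases hmg : Gp γ m
    · obtain ⟨i0, hi0⟩ := hmg
      have hmr : ¬ (-(m : ℤ) = -(r : ℤ)) := by
        intro h
        apply hgap
        exact ⟨i0, by omega⟩
      rw [if_neg hmr, Finset.sum_eq_single i0]
      · rw [if_pos (by rw [hi0]), hi0]
        ring
      · intro i _ hi
        rw [if_neg]
        intro h
        apply hi
        apply hK.inj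
        omega
      · intro h
        exact absurd (Finset.mem_univ _) h
    · rw [hK.coef r m hgap hmg, Finset.sum_eq_zero]
      · by_cases hrm : r = m
        · rw [if_pos (by rw [hrm]), if_pos hrm]
          ring
        · rw [if_neg (by omega), if_neg hrm]
          ring
      · intro i _
        rw [if_neg]
        intro h
        apply hmg
        exact ⟨i, by omega⟩

end

end AN
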