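import Pool.Agent.helper48.AN.SpecA

/-!
# Project an, module TC: power series algebraic over the field of constants are constant
-/

namespace AN

open scoped Classical

noncomputable section

theorem TC_aux {K : Type} [Field K] {f : LS K} (hf : f ∈ PS K) (q : Polynomial K) :
    Polynomial.eval₂ (LS.C : K →+* LS K) f q ∈ PS K ∧
    cf (Polynomial.eval₂ (LS.C : K →+* LS K) f q) 0 = q.eval (cf f 0) := by
  induction q using Polynomial.induction_on' with
  | add p q hp hq =>
    rw [Polynomial.eval₂_add, Polynomial.eval_add, cf_add, hp.2, hq.2]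
    exact ⟨(PS K).add_mem hp.1 hq.1, rfl⟩
  | monomial n a =>
    rw [Polynomial.eval₂_monomial, Polynomial.eval_monomial]
    have hpow : ∀ n : ℕ, f ^ n ∈ PS K ∧ cf (f ^ n) 0 = (cf f 0) ^ n := by
      intro n
      induction n with
      | zero =>
        rw [pow_zero, pow_zero]
        exact ⟨one_mem_PS, by rw [cf_one, if_pos rfl]⟩
      | succ n ih =>
        rw [pow_succ, pow_succ]
        refine ⟨PS_mul ih.1 hf, ?_⟩
        have := cf_mul_lead ih.1 hf
        rw [← ih.2]
        simpa using this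
    refine ⟨PS_mul (C_mem_PS a) (hpow n).1, ?_⟩
    rw [cf_C_mul, (hpow n).2]

theorem TC : TC_stmt := by
  intro K _ f hf hP
  obtain ⟨P, hP0, hP⟩ := hP
  refine ⟨cf f 0, ?_⟩
  obtain ⟨q, hq, hndvd⟩ := Polynomial.exists_eq_pow_rootMultiplicity_mul_and_not_dvd P hP0 (cf f 0)
  rw [hq, Polynomial.eval₂_mul, Polynomial.eval₂_pow, Polynomial.eval₂_sub, Polynomial.eval₂_X,
    Polynomial.eval₂_C] at hP
  rcases mul_eq_zero.mp hP with h | h
  · exact sub_eq_zero.mp (eq_zero_of_pow_eq_zero h)
  · exfalso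
    have h2 := (TC_aux hf q).2
    rw [h, cf_zero] at h2
    exact hndvd (Polynomial.dvd_iff_isRoot.mpr h2.symm)

end

end AN
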